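import Pool.Agent.H373R2.T7.BilF

set_option autoImplicit false

/-! Interpolation of a trigonometric polynomial between the points of a grid. -/

namespace Pool.Agent.Q259.MO
open Finset
open Pool.Agent.H807R2.Dav
open Pool.Agent.H373R2.T7 (orth)

/-- the characteristic function of a random integer -/
noncomputable def chF {ι : Type} (Ω : Finset ι) (p : ι → ℝ) (Y : ι → ℤ) (θ : ℝ) : ℂ :=
  ∑ ω ∈ Ω, ((p ω : ℝ) : ℂ) * ee ((Y ω : ℝ) * θ)

/-- the kernel -/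
noncomputable def GK (L : ℕ) (φ : ℝ) : ℂ :=
  ∑ i ∈ range (4 * L + 1), ∑ j ∈ range (2 * L + 1), ee ((((i : ℤ) + j - 3 * L : ℤ) : ℝ) * φ)

lemma chF_period {ι : Type} (Ω : Finset ι) (p : ι → ℝ) (Y : ι → ℤ) (θ : ℝ) (m : ℤ) : chF Ω p Y (θ + m) = chF Ω p Y θ := by
  unfold chF
  apply sum_congr rfl
  intro ω _
  congr 1
  have : (Y ω : ℝ) * (θ + m) = (Y ω : ℝ) * θ + ((Y ω * m : ℤ) : ℝ) := by push_cast; ring
  rw [this, ee_add_int]

lemma GK_period (L : ℕ) (φ : ℝ) (m : ℤ) : GK L (φ + m) = GK L φ := by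
  unfold GK
  apply sum_congr rfl
  intro i _
  apply sum_congr rfl
  intro j _
  have : (((i : ℤ) + j - 3 * L : ℤ) : ℝ) * (φ + m) = (((i : ℤ) + j - 3 * L : ℤ) : ℝ) * φ + ((((i : ℤ) + j - 3 * L) * m : ℤ) : ℝ) := by
    push_cast; ring
  rw [this, ee_add_int]

lemma chF_le {ι : Type} (Ω : Finset ι) (p : ι → ℝ) (Y : ι → ℤ) (hp0 : ∀ ω ∈ Ω, 0 ≤ p ω) (hp1 : ∑ ω ∈ Ω, p ω ≤ 1) (θ : ℝ) :
    ‖chF Ω p Y θ‖ ≤ 1 := by
  unfold chF
  refine (norm_sum_le _ _).trans (le_trans ?_ hp1)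
  apply sum_le_sum
  intro ω hω
  rw [norm_mul, norm_ee, mul_one, Complex.norm_real, Real.norm_of_nonneg (hp0 ω hω)]

/-- reproduction of the exponentials of small frequency -/
lemma GK_rep (L M : ℕ) (hLM : 4 * L < M) (n : ℤ) (hn : |n| ≤ L) (θ : ℝ) :
    ∑ t ∈ range M, ee ((n : ℝ) * ((t : ℝ) / M)) * GK L (θ - (t : ℝ) / M) = ((2 * L + 1 : ℕ) : ℂ) * M * ee ((n : ℝ) * θ) := by
  have hM1 : 1 ≤ M := by omega
  have hM0 : (0 : ℝ) < M := by exact_mod_cast hM1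
  have h1 : ∀ t ∈ range M, ee ((n : ℝ) * ((t : ℝ) / M)) * GK L (θ - (t : ℝ) / M) =
      ∑ j ∈ range (2 * L + 1), ∑ i ∈ range (4 * L + 1), ee ((((i : ℤ) + j - 3 * L : ℤ) : ℝ) * θ) *
        ee ((t : ℝ) * (((n - ((i : ℤ) + j - 3 * L) : ℤ) : ℝ) / M)) := by
    intro t _
    unfold GK
    rw [sum_comm, mul_sum]
    apply sum_congr rfl
    intro j _
    rw [mul_sum]
    apply sum_congr rfl
    intro i _
    rw [← ee_add, ← ee_add]
    congr 1
    push_cast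
    ring
  rw [sum_congr rfl h1, sum_comm]
  have h2 : ∀ j ∈ range (2 * L + 1), ∑ t ∈ range M, ∑ i ∈ range (4 * L + 1), ee ((((i : ℤ) + j - 3 * L : ℤ) : ℝ) * θ) *
        ee ((t : ℝ) * (((n - ((i : ℤ) + j - 3 * L) : ℤ) : ℝ) / M)) = (M : ℂ) * ee ((n : ℝ) * θ) := by
    intro j hj
    rw [mem_range] at hj
    rw [sum_comm]
    have h3 : ∀ i ∈ range (4 * L + 1), ∑ t ∈ range M, ee ((((i : ℤ) + j - 3 * L : ℤ) : ℝ) * θ) *
        ee ((t : ℝ) * (((n - ((i : ℤ) + j - 3 * L) : ℤ) : ℝ) / M)) =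
        if i = (n + 3 * L - j).toNat then (M : ℂ) * ee ((n : ℝ) * θ) else 0 := by
      intro i hi
      rw [mem_range] at hi
      rw [← mul_sum, orth M hM1]
      rw [abs_le] at hn
      by_cases h : i = (n + 3 * L - j).toNat
      · have h4 : (i : ℤ) = n + 3 * L - j := by omega
        have h5 : n - ((i : ℤ) + j - 3 * L) = 0 := by omega
        rw [if_pos h, h5, if_pos (dvd_zero _)]
        have h6 : ((i : ℤ) + j - 3 * L : ℤ) = n := by omega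
        rw [h6, mul_comm]
      · rw [if_neg h, if_neg, mul_zero]
        rintro ⟨q, hq⟩
        have h4 : |n - ((i : ℤ) + j - 3 * L)| < M := by
          rw [abs_lt]
          constructor <;> omega
        have h5 : q = 0 := by
          by_contra hq0
          have h6 : 1 ≤ |q| := Int.one_le_abs hq0
          rw [hq, abs_mul, Nat.abs_cast] at h4
          nlinarith
        rw [h5, mul_zero] at hq
        omega
    rw [sum_congr rfl h3, sum_ite_eq' (range (4 * L + 1)), if_pos]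
    rw [mem_range]
    rw [abs_le] at hn
    omega
  rw [sum_congr rfl h2, sum_const, card_range, nsmul_eq_mul, mul_assoc]

/-- interpolation -/
lemma interp {ι : Type} (Ω : Finset ι) (p : ι → ℝ) (Y : ι → ℤ) (L M : ℕ) (hLM : 4 * L < M) (hY : ∀ ω ∈ Ω, |Y ω| ≤ L) (θ : ℝ) :
    ∑ t ∈ range M, chF Ω p Y ((t : ℝ) / M) * GK L (θ - (t : ℝ) / M) = ((2 * L + 1 : ℕ) : ℂ) * M * chF Ω p Y θ := by
  unfold chF
  rw [mul_sum]
  simp only [sum_mul]
  rw [sum_comm]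
  apply sum_congr rfl
  intro ω hω
  have h := GK_rep L M hLM (Y ω) (hY ω hω) θ
  calc _ = ((p ω : ℝ) : ℂ) * ∑ t ∈ range M, ee ((Y ω : ℝ) * ((t : ℝ) / M)) * GK L (θ - (t : ℝ) / M) := by
        rw [mul_sum]
        exact sum_congr rfl fun t _ => by ring
    _ = _ := by rw [h]; ring

/-- the kernel is a product of geometric sums -/
lemma GK_prod (L : ℕ) (φ : ℝ) :
    ‖GK L φ‖ = ‖∑ i ∈ range (4 * L + 1), ee ((i : ℝ) * φ)‖ * ‖∑ j ∈ range (2 * L + 1), ee ((j : ℝ) * φ)‖ := by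
  have h : GK L φ = ee ((-(3 * L : ℕ) : ℝ) * φ) * ((∑ i ∈ range (4 * L + 1), ee ((i : ℝ) * φ)) * ∑ j ∈ range (2 * L + 1), ee ((j : ℝ) * φ)) := by
    unfold GK
    rw [sum_mul_sum, mul_sum]
    apply sum_congr rfl
    intro i _
    rw [mul_sum]
    apply sum_congr rfl
    intro j _
    rw [← ee_add, ← ee_add]
    congr 1
    push_cast
    ring
  rw [h, norm_mul, norm_ee, one_mul, norm_mul]

lemma GK_triv (L : ℕ) (φ : ℝ) : ‖GK L φ‖ ≤ ((4 * L + 1 : ℕ) : ℝ) * ((2 * L + 1 : ℕ) : ℝ) := by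
  rw [GK_prod]
  apply mul_le_mul _ _ (norm_nonneg _) (Nat.cast_nonneg _)
  · refine (norm_sum_le _ _).trans (le_of_eq ?_)
    simp [norm_ee]
  · refine (norm_sum_le _ _).trans (le_of_eq ?_)
    simp [norm_ee]

lemma dd_low {φ : ℝ} (h1 : |φ| ≤ 1 / 2) : 4 * |φ| ≤ dd φ := by
  have key : ∀ t : ℝ, 0 ≤ t → t ≤ 1 / 2 → 4 * t ≤ dd t := by
    intro t h2 h3
    have h4 := dd_ge h2 (by linarith : t ≤ 1)
    rwa [min_eq_left (by linarith)] at h4
  rcases le_total 0 φ with h | h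
  · rw [abs_of_nonneg h] at h1 ⊢
    exact key φ h h1
  · rw [abs_of_nonpos h] at h1 ⊢
    rw [← dd_neg]
    exact key (-φ) (by linarith) h1

lemma GK_dec (L : ℕ) (φ : ℝ) (h0 : φ ≠ 0) (h1 : |φ| ≤ 1 / 2) : ‖GK L φ‖ ≤ 9 / (16 * φ ^ 2) := by
  rw [GK_prod]
  have h2 := dd_low h1
  have h3 : 0 < |φ| := abs_pos.2 h0
  have g : ∀ n : ℕ, ‖∑ i ∈ range n, ee ((i : ℝ) * φ)‖ ≤ 3 / (4 * |φ|) := by
    intro n
    have h4 := geo_bound 0 n (Nat.zero_le _) (M := n) (by simp) φ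
    rw [← range_eq_Ico] at h4
    exact h4.trans (KK_le' (Nat.cast_nonneg _) (by positivity) h2)
  refine (mul_le_mul (g _) (g _) (norm_nonneg _) (by positivity)).trans (le_of_eq ?_)
  rw [← sq_abs φ]
  field_simp
  norm_num

end Pool.Agent.Q259.MO
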