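import Pool.Agent.Q259.MO.Lift1

set_option autoImplicit false

/-! A trigonometric polynomial is small at a point if it is small at the points of the grid nearby. -/

namespace Pool.Agent.Q259.MO
open Finset
open Pool.Agent.H807R2.Dav

lemma tele (y : ℝ) (hy : 1 < y) (n : ℕ) : ∑ k ∈ range n, 1 / (y + k) ^ 2 ≤ 1 / (y - 1) - 1 / (y + n - 1) := by
  induction n with
  | zero => simp
  | succ n ih =>
    rw [sum_range_succ]
    have h0 : (0 : ℝ) ≤ n := Nat.cast_nonneg _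
    have h1 : 0 < y + n - 1 := by linarith
    have h2 : 0 < y + n := by linarith
    have h3 : 1 / (y + n) ^ 2 ≤ 1 / (y + n - 1) - 1 / (y + ((n + 1 : ℕ) : ℝ) - 1) := by
      push_cast
      rw [div_sub_div _ _ h1.ne' (by linarith : y + (n + 1) - 1 ≠ 0), div_le_div_iff₀ (by positivity) (by nlinarith)]
      nlinarith
    linarith

/-- inverse squares over integers to the right of a point -/
lemma far_right (x : ℝ) (R : ℕ) (hR : 2 ≤ R) (U : Finset ℤ) (hU : ∀ u ∈ U, (R : ℝ) ≤ u - x) :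
    ∑ u ∈ U, 1 / ((u : ℝ) - x) ^ 2 ≤ 1 / ((R : ℝ) - 1) := by
  have hR2 : (2 : ℝ) ≤ R := by exact_mod_cast hR
  obtain ⟨a, ha⟩ : ∃ a : ℤ, a = ⌈x + R⌉ := ⟨_, rfl⟩
  have ha1 : x + R ≤ a := by rw [ha]; exact Int.le_ceil _
  have hge : ∀ u ∈ U, a ≤ u := by
    intro u hu
    rw [ha]
    apply Int.ceil_le.2
    have := hU u hu
    linarith
  obtain ⟨n, hn⟩ : ∃ n : ℕ, ∀ u ∈ U, (u - a).toNat < n := by
    refine ⟨(U.sup fun u => (u - a).toNat) + 1, fun u hu => ?_⟩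
    have := le_sup (f := fun u : ℤ => (u - a).toNat) hu
    omega
  have hy : 1 < (a : ℝ) - x := by linarith
  have h1 : ∑ u ∈ U, 1 / ((u : ℝ) - x) ^ 2 = ∑ k ∈ U.image (fun u => (u - a).toNat), 1 / (((a : ℝ) - x) + k) ^ 2 := by
    rw [sum_image]
    · apply sum_congr rfl
      intro u hu
      have h2 := hge u hu
      have h3 : (((u - a).toNat : ℕ) : ℝ) = (u : ℝ) - a := by
        have h4 : (((u - a).toNat : ℕ) : ℤ) = u - a := Int.toNat_of_nonneg (by omega)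
        have h5 : ((((u - a).toNat : ℕ) : ℤ) : ℝ) = ((u - a : ℤ) : ℝ) := by rw [h4]
        push_cast at h5
        exact_mod_cast h5
      rw [h3]
      congr 2
      ring
    · intro u hu v hv h
      have h2 := hge u hu
      have h3 := hge v hv
      simp only at h
      omega
  rw [h1]
  have h2 : U.image (fun u => (u - a).toNat) ⊆ range n := by
    intro k hk
    rw [mem_image] at hk
    obtain ⟨u, hu, rfl⟩ := hk
    rw [mem_range]
    exact hn u hu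
  refine (sum_le_sum_of_subset_of_nonneg h2 (fun k _ _ => by positivity)).trans ((tele _ hy n).trans ?_)
  have h3 : 0 ≤ 1 / ((a : ℝ) - x + n - 1) := by
    have : (0 : ℝ) ≤ n := Nat.cast_nonneg _
    apply div_nonneg zero_le_one
    linarith
  have h4 : 1 / ((a : ℝ) - x - 1) ≤ 1 / ((R : ℝ) - 1) := one_div_le_one_div_of_le (by linarith) (by linarith)
  linarith

/-- inverse squares over integers far from a point -/
lemma far_sum (x : ℝ) (R : ℕ) (hR : 2 ≤ R) (U : Finset ℤ) (hU : ∀ u ∈ U, (R : ℝ) ≤ |(u : ℝ) - x|) :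
    ∑ u ∈ U, 1 / ((u : ℝ) - x) ^ 2 ≤ 2 / ((R : ℝ) - 1) := by
  classical
  have hR2 : (2 : ℝ) ≤ R := by exact_mod_cast hR
  rw [← sum_filter_add_sum_filter_not U (fun u : ℤ => x ≤ (u : ℝ))]
  have h1 : ∑ u ∈ U.filter (fun u : ℤ => x ≤ (u : ℝ)), 1 / ((u : ℝ) - x) ^ 2 ≤ 1 / ((R : ℝ) - 1) := by
    apply far_right x R hR
    intro u hu
    rw [mem_filter] at hu
    have := hU u hu.1
    rwa [abs_of_nonneg (by linarith [hu.2])] at this
  have h2 : ∑ u ∈ U.filter (fun u : ℤ => ¬ x ≤ (u : ℝ)), 1 / ((u : ℝ) - x) ^ 2 ≤ 1 / ((R : ℝ) - 1) := by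
    have h3 := far_right (-x) R hR ((U.filter (fun u : ℤ => ¬ x ≤ (u : ℝ))).image (fun u => -u)) (by
      intro v hv
      rw [mem_image] at hv
      obtain ⟨u, hu, rfl⟩ := hv
      rw [mem_filter] at hu
      have h4 := hU u hu.1
      have h5 : (u : ℝ) < x := not_le.1 hu.2
      rw [abs_of_neg (by linarith)] at h4
      push_cast
      linarith)
    rw [sum_image (fun a _ b _ h => neg_injective h)] at h3
    refine le_trans (le_of_eq ?_) h3
    apply sum_congr rfl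
    intro u _
    push_cast
    congr 1
    ring
  have h3 : 1 / ((R : ℝ) - 1) + 1 / ((R : ℝ) - 1) = 2 / ((R : ℝ) - 1) := by ring
  linarith

/-- **Small at a point if small nearby on the grid.** -/
theorem lift_pt {ι : Type} (Ω : Finset ι) (p : ι → ℝ) (Y : ι → ℤ) (hp0 : ∀ ω ∈ Ω, 0 ≤ p ω) (hp1 : ∑ ω ∈ Ω, p ω ≤ 1)
    (L M : ℕ) (hL : 1 ≤ L) (hLM : 4 * L < M) (hY : ∀ ω ∈ Ω, |Y ω| ≤ L) (θ : ℝ) (R : ℕ) (hR : 2 ≤ R) (δ : ℝ) (hδ : 0 ≤ δ)
    (h : ∀ t < M, (∃ m : ℤ, |θ * M - t - m * M| ≤ R) → ‖chF Ω p Y ((t : ℝ) / M)‖ ≤ δ) :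
    ‖chF Ω p Y θ‖ ≤ (2 * R + 2) * (((4 * L + 1 : ℕ) : ℝ) / M) * δ + (9 / 16) * (2 / ((R : ℝ) - 1)) * (M / ((2 * L + 1 : ℕ) : ℝ)) := by
  classical
  have hM0 : (0 : ℝ) < M := by exact_mod_cast (by omega : 0 < M)
  have hMz : (0 : ℤ) < M := by exact_mod_cast (by omega : 0 < M)
  have hR2 : (2 : ℝ) ≤ R := by exact_mod_cast hR
  -- the representatives
  obtain ⟨T₀, hT₀⟩ : ∃ T₀ : ℤ, T₀ = ⌊θ * M - M / 2⌋ := ⟨_, rfl⟩
  have hT1 : (T₀ : ℝ) ≤ θ * M - M / 2 := by rw [hT₀]; exact Int.floor_le _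
  have hT2 : θ * M - M / 2 < T₀ + 1 := by rw [hT₀]; exact Int.lt_floor_add_one _
  -- `u t ≡ t mod M` in `[T₀ + 1, T₀ + M]`
  obtain ⟨u, hu⟩ : ∃ u : ℕ → ℤ, u = fun t : ℕ => T₀ + 1 + ((t : ℤ) - (T₀ + 1)) % M := ⟨_, rfl⟩
  have hum : ∀ t : ℕ, ∃ m : ℤ, u t = t + m * M := by
    intro t
    refine ⟨-(((t : ℤ) - (T₀ + 1)) / M), ?_⟩
    rw [hu]
    simp only
    have := Int.emod_add_mul_ediv ((t : ℤ) - (T₀ + 1)) M
    linear_combination this
  have hu1 : ∀ t : ℕ, T₀ + 1 ≤ u t ∧ u t ≤ T₀ + M := by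
    intro t
    rw [hu]
    simp only
    have h1 := Int.emod_nonneg ((t : ℤ) - (T₀ + 1)) hMz.ne'
    have h2 := Int.emod_lt_of_pos ((t : ℤ) - (T₀ + 1)) hMz
    constructor <;> linarith
  have hu2 : ∀ t : ℕ, |(u t : ℝ) - θ * M| ≤ M / 2 := by
    intro t
    obtain ⟨h1, h2⟩ := hu1 t
    have h3 : (T₀ : ℝ) + 1 ≤ u t := by exact_mod_cast h1
    have h4 : (u t : ℝ) ≤ T₀ + M := by exact_mod_cast h2
    rw [abs_le]
    constructor <;> linarith
  have hinj : Set.InjOn u ((range M : Finset ℕ) : Set ℕ) := by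
    intro s hs t ht hst
    rw [mem_coe, mem_range] at hs ht
    obtain ⟨m, hm⟩ := hum s
    obtain ⟨m', hm'⟩ := hum t
    rw [hst, hm'] at hm
    have h1 : (t : ℤ) - s = (m - m') * M := by linarith
    have h2 : m - m' = 0 := by
      by_contra hne
      have h3 : 1 ≤ |m - m'| := Int.one_le_abs hne
      have h4 : |(t : ℤ) - s| < M := by rw [abs_lt]; constructor <;> omega
      rw [h1, abs_mul, Nat.abs_cast] at h4
      nlinarith
    rw [h2, zero_mul] at h1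
    omega
  -- the bound of one term
  have hI := interp Ω p Y L M hLM hY θ
  have hterm : ∀ t ∈ range M, ‖chF Ω p Y ((t : ℝ) / M) * GK L (θ - (t : ℝ) / M)‖ =
      ‖chF Ω p Y ((t : ℝ) / M)‖ * ‖GK L (θ - (u t : ℝ) / M)‖ := by
    intro t _
    rw [norm_mul]
    congr 2
    obtain ⟨m, hm⟩ := hum t
    have h1 : θ - (t : ℝ) / M = θ - (u t : ℝ) / M + m := by
      rw [hm]
      push_cast
      field_simp
      ring
    rw [h1, GK_period]
  have h1 : ((2 * L + 1 : ℕ) : ℝ) * M * ‖chF Ω p Y θ‖ ≤ ∑ t ∈ range M, ‖chF Ω p Y ((t : ℝ) / M)‖ * ‖GK L (θ - (u t : ℝ) / M)‖ := by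
    have h2 : ‖((2 * L + 1 : ℕ) : ℂ) * M * chF Ω p Y θ‖ = ((2 * L + 1 : ℕ) : ℝ) * M * ‖chF Ω p Y θ‖ := by
      rw [norm_mul, norm_mul, Complex.norm_natCast, Complex.norm_natCast]
    rw [← h2, ← hI]
    refine (norm_sum_le _ _).trans (le_of_eq ?_)
    exact sum_congr rfl hterm
  rw [← sum_filter_add_sum_filter_not (range M) (fun t => |(u t : ℝ) - θ * M| < R)] at h1
  have hnear : ∑ t ∈ (range M).filter (fun t => |(u t : ℝ) - θ * M| < R), ‖chF Ω p Y ((t : ℝ) / M)‖ * ‖GK L (θ - (u t : ℝ) / M)‖ ≤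
      (2 * R + 2) * (δ * (((4 * L + 1 : ℕ) : ℝ) * ((2 * L + 1 : ℕ) : ℝ))) := by
    have h2 : ∀ t ∈ (range M).filter (fun t => |(u t : ℝ) - θ * M| < R), ‖chF Ω p Y ((t : ℝ) / M)‖ * ‖GK L (θ - (u t : ℝ) / M)‖ ≤
        δ * (((4 * L + 1 : ℕ) : ℝ) * ((2 * L + 1 : ℕ) : ℝ)) := by
      intro t ht
      rw [mem_filter, mem_range] at ht
      apply mul_le_mul _ (GK_triv _ _) (norm_nonneg _) hδ
      apply h t ht.1
      obtain ⟨m, hm⟩ := hum t
      refine ⟨m, ?_⟩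
      have h3 : θ * M - t - m * M = -((u t : ℝ) - θ * M) := by
        rw [hm]
        push_cast
        ring
      rw [h3, abs_neg]
      exact ht.2.le
    refine (sum_le_sum h2).trans ?_
    rw [sum_const, nsmul_eq_mul]
    apply mul_le_mul_of_nonneg_right _ (by positivity)
    have h3 : ((range M).filter (fun t => |(u t : ℝ) - θ * M| < R)).card ≤ (Icc (⌊θ * M⌋ - R) (⌊θ * M⌋ + 1 + R)).card := by
      apply card_le_card_of_injOn u
      · intro t ht
        rw [mem_coe, mem_filter, mem_range, abs_lt] at ht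
        rw [mem_coe, mem_Icc]
        obtain ⟨_, h4, h5⟩ := ht
        have h6 := Int.floor_le (θ * M)
        have h7 := Int.lt_floor_add_one (θ * M)
        constructor
        · have : ((⌊θ * M⌋ - R : ℤ) : ℝ) < (u t : ℝ) := by push_cast; linarith
          have h8 : (⌊θ * M⌋ - R : ℤ) < u t := by exact_mod_cast this
          linarith
        · have : (u t : ℝ) < ((⌊θ * M⌋ + 1 + R : ℤ) : ℝ) := by push_cast; linarith
          have h8 : u t < (⌊θ * M⌋ + 1 + R : ℤ) := by exact_mod_cast this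
          linarith
      · exact hinj.mono (by
          intro t ht
          rw [mem_coe, mem_filter] at ht
          exact ht.1)
    rw [Int.card_Icc] at h3
    have h4 : (⌊θ * M⌋ + 1 + R + 1 - (⌊θ * M⌋ - R)).toNat = 2 * R + 2 := by omega
    rw [h4] at h3
    exact_mod_cast h3
  have hfar : ∑ t ∈ (range M).filter (fun t => ¬ |(u t : ℝ) - θ * M| < R), ‖chF Ω p Y ((t : ℝ) / M)‖ * ‖GK L (θ - (u t : ℝ) / M)‖ ≤
      9 / 16 * (M : ℝ) ^ 2 * (2 / ((R : ℝ) - 1)) := by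
    have h2 : ∀ t ∈ (range M).filter (fun t => ¬ |(u t : ℝ) - θ * M| < R), ‖chF Ω p Y ((t : ℝ) / M)‖ * ‖GK L (θ - (u t : ℝ) / M)‖ ≤
        9 / 16 * (M : ℝ) ^ 2 * (1 / ((u t : ℝ) - θ * M) ^ 2) := by
      intro t ht
      rw [mem_filter, mem_range] at ht
      have h3 : (R : ℝ) ≤ |(u t : ℝ) - θ * M| := not_lt.1 ht.2
      have h4 : (u t : ℝ) - θ * M ≠ 0 := by
        intro h0
        rw [h0, abs_zero] at h3
        linarith
      have h5 : θ - (u t : ℝ) / M = -(((u t : ℝ) - θ * M) / M) := by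
        field_simp
        ring
      have h6 : ‖GK L (θ - (u t : ℝ) / M)‖ ≤ 9 / (16 * (θ - (u t : ℝ) / M) ^ 2) := by
        apply GK_dec
        · rw [h5]
          exact neg_ne_zero.2 (div_ne_zero h4 hM0.ne')
        · rw [h5, abs_neg, abs_div, abs_of_pos hM0, div_le_iff₀ hM0]
          linarith [hu2 t]
      calc _ ≤ 1 * (9 / (16 * (θ - (u t : ℝ) / M) ^ 2)) := mul_le_mul (chF_le Ω p Y hp0 hp1 _) h6 (norm_nonneg _) zero_le_one
        _ = _ := by
            rw [h5]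
            field_simp
    refine (sum_le_sum h2).trans ?_
    rw [← mul_sum]
    apply mul_le_mul_of_nonneg_left _ (by positivity)
    have h3 := far_sum (θ * M) R hR (((range M).filter (fun t => ¬ |(u t : ℝ) - θ * M| < R)).image u) (by
      intro v hv
      rw [mem_image] at hv
      obtain ⟨t, ht, rfl⟩ := hv
      rw [mem_filter] at ht
      exact not_lt.1 ht.2)
    rwa [sum_image (hinj.mono (by
      intro t ht
      rw [mem_coe, mem_filter] at ht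
      exact ht.1))] at h3
  have hP : (0 : ℝ) < ((2 * L + 1 : ℕ) : ℝ) * M := by positivity
  have h2 : ((2 * L + 1 : ℕ) : ℝ) * M * ‖chF Ω p Y θ‖ ≤ (2 * R + 2) * (δ * (((4 * L + 1 : ℕ) : ℝ) * ((2 * L + 1 : ℕ) : ℝ))) +
      9 / 16 * (M : ℝ) ^ 2 * (2 / ((R : ℝ) - 1)) := h1.trans (add_le_add hnear hfar)
  have h3 : ‖chF Ω p Y θ‖ ≤ ((2 * R + 2) * (δ * (((4 * L + 1 : ℕ) : ℝ) * ((2 * L + 1 : ℕ) : ℝ))) +
      9 / 16 * (M : ℝ) ^ 2 * (2 / ((R : ℝ) - 1))) / (((2 * L + 1 : ℕ) : ℝ) * M) := by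
    rw [le_div_iff₀ hP]
    linarith
  refine h3.trans (le_of_eq ?_)
  have h4 : ((2 * L + 1 : ℕ) : ℝ) ≠ 0 := by positivity
  have h5 : (R : ℝ) - 1 ≠ 0 := by linarith
  field_simp

end Pool.Agent.Q259.MO
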