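import Pool.Agent.Y885.TH

set_option autoImplicit false

/-! Thin sets of frequencies: finer grids and dilations. -/

namespace Pool.Agent.Q259.MO
open Finset
open Pool.Agent.Y885 (Thin)

lemma card_diff (A : Finset ℕ) (D : ℕ) (h : ∀ x ∈ A, ∀ y ∈ A, x ≤ y + D) : A.card ≤ D + 1 := by
  rcases A.eq_empty_or_nonempty with rfl | hA
  · simp
  · have h1 : A ⊆ Icc (A.min' hA) (A.min' hA + D) := by
      intro x hx
      rw [mem_Icc]
      exact ⟨A.min'_le x hx, h x hx _ (A.min'_mem hA)⟩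
    refine (card_le_card h1).trans (le_of_eq ?_)
    rw [Nat.card_Icc]
    omega

/-- the elements of `S'` come from elements of `S0` -/
def Comes (b k e h R : ℕ) (S0 S' : Finset ℕ) : Prop :=
  ∀ t' ∈ S', t' < b ^ (k + e + 1) ∧ ∃ t ∈ S0, ∃ c : ℤ, -1 ≤ c ∧ c ≤ h ∧
    |(h : ℤ) * t' - (t + c * (b : ℤ) ^ (k + 1)) * (b : ℤ) ^ e| ≤ R * (b : ℤ) ^ e

theorem thin_lift (b E Q k m m' e h R s : ℕ) (hb : 2 ≤ b) (hE : 1 ≤ E) (hh : 1 ≤ h) (hs : h + 2 * R < b ^ s) (hm : 2 * m ≤ k)
    (hmm : m ≤ m') (S0 S' : Finset ℕ) (hT : Thin b E Q k m S0) (hC : Comes b k e h R S0 S') :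
    Thin b E (Q * ((h + 2) * (2 * R * b ^ e + 1) * b ^ (s + e + 1))) (k + e) m' S' := by
  classical
  have hb0 : 0 < b := by omega
  have hbz : (0 : ℤ) < b := by exact_mod_cast hb0
  have hbe : 1 ≤ b ^ e := Nat.one_le_pow _ _ hb0
  have hbs : 1 ≤ b ^ s := Nat.one_le_pow _ _ hb0
  have hhz : (1 : ℤ) ≤ h := by exact_mod_cast hh
  -- the choice
  have hch : ∀ t' : ℕ, ∃ q : ℕ × ℤ, t' ∈ S' → q.1 ∈ S0 ∧ -1 ≤ q.2 ∧ q.2 ≤ h ∧
      |(h : ℤ) * t' - (q.1 + q.2 * (b : ℤ) ^ (k + 1)) * (b : ℤ) ^ e| ≤ R * (b : ℤ) ^ e := by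
    intro t'
    by_cases ht : t' ∈ S'
    · obtain ⟨_, t, h1, c, h2, h3, h4⟩ := hC t' ht
      exact ⟨(t, c), fun _ => ⟨h1, h2, h3, h4⟩⟩
    · exact ⟨(0, 0), fun h => absurd h ht⟩
  choose f hf using hch
  -- the distance of two elements of `S'`
  have hdist : ∀ t' ∈ S', ∀ t'' ∈ S', (f t').2 = (f t'').2 → ∀ D : ℕ, (f t').1 ≤ (f t'').1 + D → t' ≤ t'' + (D + 2 * R) * b ^ e := by
    intro t' ht' t'' ht'' hc D hD
    obtain ⟨_, _, _, g1⟩ := hf t' ht'
    obtain ⟨_, _, _, g2⟩ := hf t'' ht''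
    rw [abs_le] at g1 g2
    rw [hc] at g1
    have hDz : (((f t').1 : ℕ) : ℤ) ≤ (f t'').1 + D := by exact_mod_cast hD
    have hBe : (0 : ℤ) < (b : ℤ) ^ e := by positivity
    have g3 : (h : ℤ) * t' ≤ h * t'' + (D + 2 * R) * (b : ℤ) ^ e := by
      have g4 : (((f t').1 : ℕ) : ℤ) * (b : ℤ) ^ e ≤ ((f t'').1 + D) * (b : ℤ) ^ e := mul_le_mul_of_nonneg_right hDz hBe.le
      linarith [g1.2, g2.1]
    by_contra hcon
    push Not at hcon
    have g5 : ((t'' : ℤ) + (D + 2 * R) * (b : ℤ) ^ e) + 1 ≤ t' := by exact_mod_cast hcon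
    have g6 : (h : ℤ) * (((t'' : ℤ) + (D + 2 * R) * (b : ℤ) ^ e) + 1) ≤ h * t' := mul_le_mul_of_nonneg_left g5 (by linarith)
    have g7 : 1 * ((D + 2 * R) * (b : ℤ) ^ e) ≤ h * ((D + 2 * R) * (b : ℤ) ^ e) := mul_le_mul_of_nonneg_right hhz (by positivity)
    linarith
  have hcount : ∀ A ⊆ S', ∀ q : ℕ × ℤ, (A.filter (fun t' => f t' = q)).card ≤ 2 * R * b ^ e + 1 := by
    intro A hA q
    apply card_diff
    intro x hx y hy
    rw [mem_filter] at hx hy
    have := hdist x (hA hx.1) y (hA hy.1) (by rw [hx.2, hy.2]) 0 (by rw [hx.2, hy.2]; omega)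
    rwa [zero_add] at this
  have hcardS' : S'.card ≤ (2 * R * b ^ e + 1) * (S0.card * (h + 2)) := by
    have h1 : ∀ t' ∈ S', f t' ∈ S0 ×ˢ Icc (-1 : ℤ) h := by
      intro t' ht'
      obtain ⟨g1, g2, g3, _⟩ := hf t' ht'
      rw [mem_product, mem_Icc]
      exact ⟨g1, g2, g3⟩
    have h2 := card_le_mul_card_image_of_maps_to h1 (2 * R * b ^ e + 1) (fun q _ => hcount S' (Subset.refl _) q)
    rw [card_product, Int.card_Icc] at h2
    have h3 : ((h : ℤ) + 1 - -1).toNat = h + 2 := by omega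
    rwa [h3] at h2
  -- the common bound
  have hall : S'.card * b ^ ((k + e) / E) ≤ Q * ((h + 2) * (2 * R * b ^ e + 1) * b ^ (e + 1)) * b ^ m := by
    have h1 : (k + e) / E ≤ k / E + (e + 1) := by
      have h2 : (k + e) / E ≤ k / E + e / E + 1 := by
        rw [Nat.div_le_iff_le_mul_add_pred (by omega)]
        have h3 := Nat.div_add_mod k E
        have h4 := Nat.div_add_mod e E
        have h5 := Nat.mod_lt k (by omega : 0 < E)
        have h6 := Nat.mod_lt e (by omega : 0 < E)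
        have h7 : E * (k / E + e / E + 1) = E * (k / E) + E * (e / E) + E := by ring
        omega
      have h3 : e / E ≤ e := Nat.div_le_self _ _
      omega
    calc S'.card * b ^ ((k + e) / E) ≤ ((2 * R * b ^ e + 1) * (S0.card * (h + 2))) * b ^ (k / E + (e + 1)) :=
          Nat.mul_le_mul hcardS' (Nat.pow_le_pow_right hb0 h1)
      _ = (S0.card * b ^ (k / E)) * ((h + 2) * (2 * R * b ^ e + 1) * b ^ (e + 1)) := by rw [pow_add]; ring
      _ ≤ (Q * b ^ m) * ((h + 2) * (2 * R * b ^ e + 1) * b ^ (e + 1)) := Nat.mul_le_mul_right _ hT.all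
      _ = _ := by ring
  have hlast : ∀ j i : ℕ, j ≤ k + e → m ≤ i + s → S'.card * b ^ (j / E) ≤ Q * ((h + 2) * (2 * R * b ^ e + 1) * b ^ (s + e + 1)) * b ^ i := by
    intro j i hj hi
    calc S'.card * b ^ (j / E) ≤ S'.card * b ^ ((k + e) / E) :=
          Nat.mul_le_mul_left _ (Nat.pow_le_pow_right hb0 (Nat.div_le_div_right hj))
      _ ≤ Q * ((h + 2) * (2 * R * b ^ e + 1) * b ^ (e + 1)) * b ^ m := hall
      _ ≤ Q * ((h + 2) * (2 * R * b ^ e + 1) * b ^ (e + 1)) * b ^ (i + s) := Nat.mul_le_mul_left _ (Nat.pow_le_pow_right hb0 hi)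
      _ = _ := by rw [pow_add b i s, show s + e + 1 = s + (e + 1) by ring, pow_add b s (e + 1)]; ring
  refine ⟨fun t' ht' => (hC t' ht').1, fun i hi => ?_, fun j x hj => ?_, ?_⟩
  · -- prefixes
    by_cases hik : 2 * i ≤ k
    · obtain ⟨P, hP⟩ : ∃ P, P = b ^ (k - 2 * i) := ⟨_, rfl⟩
      have hP1 : 1 ≤ P := by rw [hP]; exact Nat.one_le_pow _ _ hb0
      have hP' : b ^ (k + e - 2 * i) = P * b ^ e := by
        rw [hP, ← pow_add]
        congr 1
        omega
      rw [hP']
      have hPe : 0 < P * b ^ e := Nat.mul_pos hP1 hbe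
      obtain ⟨A, hA⟩ : ∃ A, A = S'.image (fun t => t / (P * b ^ e)) := ⟨_, rfl⟩
      rw [← hA]
      have hrep : ∀ a : ℕ, ∃ t' : ℕ, a ∈ A → t' ∈ S' ∧ t' / (P * b ^ e) = a := by
        intro a
        by_cases ha : a ∈ A
        · rw [hA, mem_image] at ha
          obtain ⟨t', h1, h2⟩ := ha
          exact ⟨t', fun _ => ⟨h1, h2⟩⟩
        · exact ⟨0, fun h => absurd h ha⟩
      choose ρ hρ using hrep
      have h1 : ∀ a ∈ A, ((f (ρ a)).1 / P, (f (ρ a)).2) ∈ (S0.image (fun t => t / P)) ×ˢ Icc (-1 : ℤ) h := by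
        intro a ha
        obtain ⟨g1, g2, g3, _⟩ := hf (ρ a) (hρ a ha).1
        rw [mem_product, mem_Icc, mem_image]
        exact ⟨⟨_, g1, rfl⟩, g2, g3⟩
      have h2 := card_le_mul_card_image_of_maps_to h1 (2 * R + 1 + 1) (by
        intro q _
        apply card_diff
        intro x hx y hy
        rw [mem_filter] at hx hy
        obtain ⟨hx1, hx2⟩ := hx
        obtain ⟨hy1, hy2⟩ := hy
        have e0 : ((f (ρ x)).1 / P, (f (ρ x)).2) = ((f (ρ y)).1 / P, (f (ρ y)).2) := by rw [hx2, hy2]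
        rw [Prod.mk.injEq] at e0
        have e1 : (f (ρ x)).1 ≤ (f (ρ y)).1 + P := by
          have g1 := Nat.div_add_mod (f (ρ x)).1 P
          have g2 := Nat.div_add_mod (f (ρ y)).1 P
          have g3 := Nat.mod_lt (f (ρ x)).1 (by omega : 0 < P)
          rw [e0.1] at g1
          omega
        have e2 := hdist _ (hρ x hx1).1 _ (hρ y hy1).1 e0.2 P e1
        have e3 : ρ x ≤ ρ y + (2 * R + 1) * (P * b ^ e) := by
          refine e2.trans (Nat.add_le_add_left ?_ _)
          rw [← mul_assoc]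
          apply Nat.mul_le_mul_right
          nlinarith
        have e4 : ρ x / (P * b ^ e) ≤ (ρ y + (2 * R + 1) * (P * b ^ e)) / (P * b ^ e) := Nat.div_le_div_right e3
        rw [Nat.add_mul_div_right _ _ hPe, (hρ x hx1).2, (hρ y hy1).2] at e4
        exact e4)
      rw [card_product, Int.card_Icc] at h2
      have h3 : ((h : ℤ) + 1 - -1).toNat = h + 2 := by omega
      rw [h3] at h2
      have h4 := hT.bot i hik
      rw [← hP] at h4
      have h5 : 2 * R + 1 + 1 ≤ (2 * R * b ^ e + 1) * b ^ (s + e + 1) := by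
        have g1 : 2 * R ≤ 2 * R * b ^ e := Nat.le_mul_of_pos_right _ hbe
        have g2 : 2 ≤ b ^ (s + e + 1) := by
          calc 2 ≤ b ^ 1 := by rw [pow_one]; exact hb
            _ ≤ _ := Nat.pow_le_pow_right hb0 (by omega)
        nlinarith
      calc A.card * b ^ (i / E) ≤ ((2 * R + 1 + 1) * ((S0.image (fun t => t / P)).card * (h + 2))) * b ^ (i / E) :=
            Nat.mul_le_mul_right _ h2
        _ = ((S0.image (fun t => t / P)).card * b ^ (i / E)) * ((h + 2) * (2 * R + 1 + 1)) := by ring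
        _ ≤ (Q * b ^ i) * ((h + 2) * ((2 * R * b ^ e + 1) * b ^ (s + e + 1))) :=
            Nat.mul_le_mul h4 (Nat.mul_le_mul_left _ h5)
        _ = _ := by ring
    · refine (Nat.mul_le_mul_right _ card_image_le).trans (hlast i i (by omega) (by omega))
  · -- windows
    by_cases hjk : j + s ≤ k
    · obtain ⟨A, hA⟩ : ∃ A, A = S'.filter (fun t => x ≤ t ∧ t < x + b ^ j) := ⟨_, rfl⟩
      rw [← hA]
      have hAS : A ⊆ S' := by rw [hA]; exact filter_subset _ _
      have h1 : ∀ t' ∈ A, (f t').2 ∈ Icc (-1 : ℤ) h := by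
        intro t' ht'
        obtain ⟨_, g2, g3, _⟩ := hf t' (hAS ht')
        rw [mem_Icc]
        exact ⟨g2, g3⟩
      have h2 : ∀ c ∈ Icc (-1 : ℤ) h, (A.filter (fun t' => (f t').2 = c)).card * b ^ (j / E) ≤ (2 * R * b ^ e + 1) * (Q * b ^ (j + s)) := by
        intro c _
        obtain ⟨Ac, hAc⟩ : ∃ Ac, Ac = A.filter (fun t' => (f t').2 = c) := ⟨_, rfl⟩
        rw [← hAc]
        obtain ⟨Z, hZ⟩ : ∃ Z, Z = Ac.image (fun t' => (f t').1) := ⟨_, rfl⟩
        have e1 : Ac.card ≤ (2 * R * b ^ e + 1) * Z.card := by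
          apply card_le_mul_card_image_of_maps_to (f := fun t' => (f t').1)
          · intro t' ht'
            rw [hZ]
            exact mem_image_of_mem _ ht'
          · intro z _
            refine le_trans ?_ (hcount A hAS (z, c))
            apply card_le_card
            intro t' ht'
            rw [mem_filter, hAc, mem_filter] at ht'
            rw [mem_filter]
            exact ⟨ht'.1.1, Prod.ext ht'.2 ht'.1.2⟩
        have e2 : Z.card * b ^ (j / E) ≤ Q * b ^ (j + s) := by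
          rcases Z.eq_empty_or_nonempty with h0 | h0
          · rw [h0, card_empty, zero_mul]
            exact Nat.zero_le _
          · obtain ⟨x0, hx0⟩ : ∃ x0, x0 = Z.min' h0 := ⟨_, rfl⟩
            have e3 : Z ⊆ S0.filter (fun t => x0 ≤ t ∧ t < x0 + b ^ (j + s)) := by
              intro z hz
              have e4 : x0 ≤ z := by rw [hx0]; exact Z.min'_le z hz
              have hz0 : x0 ∈ Z := by rw [hx0]; exact Z.min'_mem h0
              rw [hZ, mem_image] at hz hz0
              obtain ⟨t', ht', rfl⟩ := hz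
              obtain ⟨t0, ht0, hx0'⟩ := hz0
              rw [hAc, mem_filter] at ht' ht0
              have ht'S := hAS ht'.1
              have ht0S := hAS ht0.1
              obtain ⟨g1, _, _, g4⟩ := hf t' ht'S
              obtain ⟨_, _, _, g5⟩ := hf t0 ht0S
              rw [mem_filter]
              refine ⟨g1, e4, ?_⟩
              rw [ht'.2] at g4
              rw [ht0.2] at g5
              rw [abs_le] at g4 g5
              have ha := ht'.1
              have hb' := ht0.1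
              rw [hA, mem_filter] at ha hb'
              have g6 : (t' : ℤ) ≤ t0 + (b : ℤ) ^ j := by
                have g7 : t' ≤ t0 + b ^ j := by omega
                exact_mod_cast g7
              have hBe : (0 : ℤ) < (b : ℤ) ^ e := by positivity
              have hBe1 : (1 : ℤ) ≤ (b : ℤ) ^ e := by exact_mod_cast hbe
              have hBj1 : (1 : ℤ) ≤ (b : ℤ) ^ j := by exact_mod_cast Nat.one_le_pow j b hb0
              have hbs' : ((h : ℤ) + 2 * R) + 1 ≤ (b : ℤ) ^ s := by exact_mod_cast hs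
              by_contra hcon
              push Not at hcon
              have g8 : ((x0 : ℕ) : ℤ) + (b : ℤ) ^ j * (b : ℤ) ^ s ≤ (f t').1 := by
                rw [pow_add] at hcon
                exact_mod_cast hcon
              rw [← hx0'] at g8
              have g9 : (h : ℤ) * t' ≤ h * (t0 + (b : ℤ) ^ j) := mul_le_mul_of_nonneg_left g6 (by linarith)
              have g10 : (((f t0).1 : ℤ) + (b : ℤ) ^ j * (b : ℤ) ^ s) * (b : ℤ) ^ e ≤ (f t').1 * (b : ℤ) ^ e :=
                mul_le_mul_of_nonneg_right g8 hBe.le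
              have g11 : (b : ℤ) ^ j * (b : ℤ) ^ s * (b : ℤ) ^ e ≤ h * (b : ℤ) ^ j + 2 * R * (b : ℤ) ^ e := by
                linarith [g4.1, g5.2]
              have g12 : (b : ℤ) ^ j * (h + 2 * R + 1) * (b : ℤ) ^ e ≤ (b : ℤ) ^ j * (b : ℤ) ^ s * (b : ℤ) ^ e := by
                apply mul_le_mul_of_nonneg_right _ hBe.le
                apply mul_le_mul_of_nonneg_left hbs' (by positivity)
              have g13 : (h : ℤ) * (b : ℤ) ^ j ≤ (b : ℤ) ^ j * h * (b : ℤ) ^ e := by
                have : (0 : ℤ) ≤ (b : ℤ) ^ j * h := by positivity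
                nlinarith
              have g14 : 2 * (R : ℤ) * (b : ℤ) ^ e ≤ (b : ℤ) ^ j * (2 * R) * (b : ℤ) ^ e := by
                apply mul_le_mul_of_nonneg_right _ hBe.le
                have : (0 : ℤ) ≤ 2 * R := by positivity
                nlinarith
              have g15 : (0 : ℤ) < (b : ℤ) ^ j * (b : ℤ) ^ e := by positivity
              have g16 : (b : ℤ) ^ j * (h + 2 * R + 1) * (b : ℤ) ^ e = (b : ℤ) ^ j * h * (b : ℤ) ^ e +
                  (b : ℤ) ^ j * (2 * R) * (b : ℤ) ^ e + (b : ℤ) ^ j * (b : ℤ) ^ e := by ring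
              linarith
            have e4 := hT.top (j + s) x0 hjk
            calc Z.card * b ^ (j / E) ≤ (S0.filter (fun t => x0 ≤ t ∧ t < x0 + b ^ (j + s))).card * b ^ ((j + s) / E) :=
                  Nat.mul_le_mul (card_le_card e3) (Nat.pow_le_pow_right hb0 (Nat.div_le_div_right (by omega)))
              _ ≤ _ := e4
        calc Ac.card * b ^ (j / E) ≤ ((2 * R * b ^ e + 1) * Z.card) * b ^ (j / E) := Nat.mul_le_mul_right _ e1
          _ = (2 * R * b ^ e + 1) * (Z.card * b ^ (j / E)) := by ring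
          _ ≤ _ := Nat.mul_le_mul_left _ e2
      rw [card_eq_sum_card_fiberwise h1, sum_mul]
      refine (sum_le_sum h2).trans ?_
      rw [sum_const, Int.card_Icc, smul_eq_mul]
      have h3 : ((h : ℤ) + 1 - -1).toNat = h + 2 := by omega
      rw [h3]
      have h4 : b ^ (j + s) ≤ b ^ (s + e + 1) * b ^ j := by
        rw [← pow_add]
        exact Nat.pow_le_pow_right hb0 (by omega)
      calc (h + 2) * ((2 * R * b ^ e + 1) * (Q * b ^ (j + s))) = Q * ((h + 2) * (2 * R * b ^ e + 1)) * b ^ (j + s) := by ring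
        _ ≤ Q * ((h + 2) * (2 * R * b ^ e + 1)) * (b ^ (s + e + 1) * b ^ j) := Nat.mul_le_mul_left _ h4
        _ = _ := by ring
    · refine (Nat.mul_le_mul_right _ (card_le_card (filter_subset _ _))).trans (hlast j j (by omega) (by omega))
  · refine hall.trans ?_
    calc Q * ((h + 2) * (2 * R * b ^ e + 1) * b ^ (e + 1)) * b ^ m ≤
          Q * ((h + 2) * (2 * R * b ^ e + 1) * b ^ (s + e + 1)) * b ^ m' := by
          apply Nat.mul_le_mul _ (Nat.pow_le_pow_right hb0 hmm)
          apply Nat.mul_le_mul_left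
          apply Nat.mul_le_mul_left
          exact Nat.pow_le_pow_right hb0 (by omega)

end Pool.Agent.Q259.MO
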