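import Pool.Agent.Q259.MO.Lift2
import Pool.Agent.Q259.MO.Lift3
import Pool.Agent.Q259.AS.Eng

set_option autoImplicit false

/-! Multiples of random integers with a thin large spectrum, on finer grids. -/

namespace Pool.Agent.Q259.MO
open Finset
open Pool.Agent.H807R2.Dav
open Pool.Agent.Y885 (Thin TLaw Spec)
open Pool.Agent.Q259.AS (LW thin_mono)

/-- the numbers -/
lemma num_small (b K V e R L M : ℕ) (hb : 2 ≤ b) (hK : 4 * b ^ 4 * 2 ^ V + 8 * 2 ^ V + 4 ≤ K) (he : e ≤ K) (hR : R = K ^ (V + 2))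
    (hL : 1 ≤ L) (hM : M = b ^ 4 * L) :
    (2 * (R : ℝ) + 2) * (((4 * L + 1 : ℕ) : ℝ) / M) * (1 / (K : ℝ) ^ (2 * V + 5)) +
      (9 / 16) * (2 / ((R : ℝ) - 1)) * (M / ((2 * L + 1 : ℕ) : ℝ)) ≤ 1 / ((K + e : ℕ) : ℝ) ^ V := by
  have hbr : (2 : ℝ) ≤ b := by exact_mod_cast hb
  have hK4 : (4 : ℝ) ≤ K := by exact_mod_cast (by omega : 4 ≤ K)
  have hK0 : (0 : ℝ) < K := by linarith
  have hL0 : (0 : ℝ) < L := by exact_mod_cast hL
  have hL1 : (1 : ℝ) ≤ L := by exact_mod_cast hL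
  have h2V : (1 : ℝ) ≤ 2 ^ V := one_le_pow₀ (by norm_num)
  have hb4 : (16 : ℝ) ≤ (b : ℝ) ^ 4 := by
    calc (16 : ℝ) = 2 ^ 4 := by norm_num
      _ ≤ _ := pow_le_pow_left₀ (by norm_num) hbr 4
  have hKV : (0 : ℝ) < (K : ℝ) ^ V := by positivity
  have hRr : (R : ℝ) = (K : ℝ) ^ V * (K : ℝ) ^ 2 := by rw [hR]; push_cast; rw [pow_add]
  have hKV1 : (1 : ℝ) ≤ (K : ℝ) ^ V := one_le_pow₀ (by linarith)
  have hR16 : (16 : ℝ) ≤ R := by
    rw [hRr]
    nlinarith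
  have hMr : (M : ℝ) = (b : ℝ) ^ 4 * L := by rw [hM]; push_cast; rfl
  have hM0 : (0 : ℝ) < M := by rw [hMr]; positivity
  have hKn : 4 * (b : ℝ) ^ 4 * 2 ^ V + 8 * 2 ^ V + 4 ≤ K := by exact_mod_cast hK
  -- the threshold
  have hthr : 1 / (2 ^ V * (K : ℝ) ^ V) ≤ 1 / ((K + e : ℕ) : ℝ) ^ V := by
    apply one_div_le_one_div_of_le
    · have : (0 : ℝ) < ((K + e : ℕ) : ℝ) := by exact_mod_cast (by omega : 0 < K + e)
      positivity
    · rw [← mul_pow]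
      apply pow_le_pow_left₀ (Nat.cast_nonneg _)
      push_cast
      have : (e : ℝ) ≤ K := by exact_mod_cast he
      linarith
  refine le_trans ?_ hthr
  have h1 : (2 * (R : ℝ) + 2) * (((4 * L + 1 : ℕ) : ℝ) / M) * (1 / (K : ℝ) ^ (2 * V + 5)) ≤ 1 / 2 * (1 / (2 ^ V * (K : ℝ) ^ V)) := by
    have e1 : ((4 * L + 1 : ℕ) : ℝ) / M ≤ 1 := by
      rw [div_le_one hM0, hMr]
      push_cast
      nlinarith
    have e2 : (2 * (R : ℝ) + 2) * (((4 * L + 1 : ℕ) : ℝ) / M) ≤ 4 * R := by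
      calc _ ≤ (2 * (R : ℝ) + 2) * 1 := mul_le_mul_of_nonneg_left e1 (by positivity)
        _ ≤ _ := by linarith
    have e3 : (K : ℝ) ^ (2 * V + 5) = ((K : ℝ) ^ V) ^ 2 * (K : ℝ) ^ 5 := by rw [← pow_mul, ← pow_add]; congr 1; ring
    calc _ ≤ (4 * R) * (1 / (K : ℝ) ^ (2 * V + 5)) := mul_le_mul_of_nonneg_right e2 (by positivity)
      _ = 4 / ((K : ℝ) ^ V * (K : ℝ) ^ 3) := by
          rw [e3, hRr]
          field_simp
      _ ≤ _ := by
          rw [div_le_iff₀ (by positivity)]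
          have e4 : 1 / 2 * (1 / (2 ^ V * (K : ℝ) ^ V)) * ((K : ℝ) ^ V * (K : ℝ) ^ 3) = (K : ℝ) ^ 3 / (2 * 2 ^ V) := by
            field_simp
          rw [e4, le_div_iff₀ (by positivity)]
          have e5 : 8 * 2 ^ V ≤ (K : ℝ) := by
            have : (0 : ℝ) ≤ 4 * (b : ℝ) ^ 4 * 2 ^ V := by positivity
            linarith
          have e6 : (K : ℝ) ≤ (K : ℝ) ^ 3 := by nlinarith [sq_nonneg (K : ℝ)]
          linarith
  have h2 : (9 / 16) * (2 / ((R : ℝ) - 1)) * (M / ((2 * L + 1 : ℕ) : ℝ)) ≤ 1 / 2 * (1 / (2 ^ V * (K : ℝ) ^ V)) := by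
    have e1 : (M : ℝ) / ((2 * L + 1 : ℕ) : ℝ) ≤ (b : ℝ) ^ 4 / 2 := by
      rw [hMr, div_le_div_iff₀ (by positivity) (by norm_num)]
      push_cast
      nlinarith
    have e2 : 2 / ((R : ℝ) - 1) ≤ 3 / R := by
      rw [div_le_div_iff₀ (by linarith) (by linarith)]
      linarith
    calc _ ≤ (9 / 16) * (3 / R) * ((b : ℝ) ^ 4 / 2) := by
          apply mul_le_mul _ e1 (by positivity) (by positivity)
          exact mul_le_mul_of_nonneg_left e2 (by norm_num)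
      _ ≤ (b : ℝ) ^ 4 / R := by
          rw [div_eq_mul_one_div ((b : ℝ) ^ 4) (R : ℝ), div_eq_mul_one_div (3 : ℝ) (R : ℝ)]
          have : 0 ≤ (b : ℝ) ^ 4 * (1 / (R : ℝ)) := by positivity
          nlinarith
      _ ≤ _ := by
          rw [div_le_iff₀ (by linarith), hRr]
          have e4 : 1 / 2 * (1 / (2 ^ V * (K : ℝ) ^ V)) * ((K : ℝ) ^ V * (K : ℝ) ^ 2) = (K : ℝ) ^ 2 / (2 * 2 ^ V) := by
            field_simp
          rw [e4, le_div_iff₀ (by positivity)]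
          have e5 : 4 * (b : ℝ) ^ 4 * 2 ^ V ≤ (K : ℝ) := by linarith
          have e6 : (K : ℝ) ≤ (K : ℝ) ^ 2 := by nlinarith
          have e7 : (0 : ℝ) ≤ (b : ℝ) ^ 4 * 2 ^ V := by positivity
          linarith
  linarith

lemma ev_pow (b W : ℕ) (hb : 2 ≤ b) : ∃ k₁ : ℕ, ∀ K : ℕ, k₁ ≤ K → ∀ e : ℕ, b ^ e ≤ K ^ W → e ≤ K := by
  have h := (tendsto_pow_const_div_const_pow_of_one_lt W (r := (2 : ℝ)) (by norm_num)).eventually_lt_const (show (0 : ℝ) < 1 by norm_num)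
  rw [Filter.eventually_atTop] at h
  obtain ⟨k₁, hk₁⟩ := h
  refine ⟨k₁, fun K hK e he => ?_⟩
  by_contra hcon
  push Not at hcon
  have h1 := hk₁ K hK
  rw [div_lt_one (by positivity)] at h1
  have h2 : K ^ W < 2 ^ K := by exact_mod_cast h1
  have h3 : 2 ^ K ≤ b ^ e := (Nat.pow_le_pow_left hb K).trans (Nat.pow_le_pow_right (by omega) hcon.le)
  omega

/-- **Multiples on finer grids.** -/
theorem dil_law (b E : ℕ) (hb : 2 ≤ b) (hE : 1 ≤ E) (c k₀ : ℕ → ℕ) (W V : ℕ) : ∃ c' K₁ : ℕ, ∀ K : ℕ, K₁ ≤ K → ∀ e : ℕ,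
    b ^ e ≤ K ^ W → ∀ h : ℕ, 1 ≤ h → Nat.log b h ≤ e → ∀ (S : Finset ℤ) (w : ℤ → ℝ), LW b E c k₀ K S w →
    (∀ n ∈ S, (b : ℤ) ^ 3 * |n| ≤ (b : ℤ) ^ K) → TLaw b E c' V (K + e) S w (fun n => (h : ℤ) * n) := by
  obtain ⟨k₁, hk₁⟩ := ev_pow b W hb
  obtain ⟨k₂, hk₂⟩ := ev_pow b (V + 2) hb
  obtain ⟨V1, hV1⟩ : ∃ V1, V1 = 2 * V + 5 := ⟨_, rfl⟩
  refine ⟨c V1 + ((W + 2) + (V + W + 3) + (2 * W + V + 6)), k₁ + k₂ + k₀ V1 + (4 * b ^ 4 * 2 ^ V + 8 * 2 ^ V + 4) + b ^ 2, fun K hK e he h hh hhe S w hlaw hsupp => ?_⟩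
  have hb1 : 1 < b := by omega
  have hb0 : 0 < b := by omega
  have heK : e ≤ K := hk₁ K (by omega) e he
  have hK4 : 4 ≤ K := by omega
  have hKb2 : b ^ 2 ≤ K := by omega
  obtain ⟨R, hR⟩ : ∃ R, R = K ^ (V + 2) := ⟨_, rfl⟩
  obtain ⟨L, hL⟩ : ∃ L, L = b ^ (K - 3) := ⟨_, rfl⟩
  obtain ⟨M, hM⟩ : ∃ M, M = b ^ (K + 1) := ⟨_, rfl⟩
  have hL1 : 1 ≤ L := by rw [hL]; exact Nat.one_le_pow _ _ hb0
  have hML : M = b ^ 4 * L := by
    rw [hM, hL, ← pow_add]
    congr 1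
    omega
  have hb4 : 16 ≤ b ^ 4 := by
    calc 16 = 2 ^ 4 := by norm_num
      _ ≤ _ := Nat.pow_le_pow_left hb 4
  have hLM : 4 * L < M := by
    rw [hML]
    nlinarith
  have hM0 : 0 < M := by omega
  have hM0r : (0 : ℝ) < M := by exact_mod_cast hM0
  have hR2 : 2 ≤ R := by
    rw [hR, pow_add]
    have h1 : 1 ≤ K ^ V := Nat.one_le_pow _ _ (by omega)
    nlinarith
  have hKlt : K < b ^ K := Nat.lt_pow_self hb1
  -- the support
  have hY : ∀ n ∈ S, |n| ≤ (L : ℤ) := by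
    intro n hn
    have h1 := hsupp n hn
    have h2 : (b : ℤ) ^ K = (b : ℤ) ^ 3 * L := by
      rw [hL]
      push_cast
      rw [← pow_add]
      congr 1
      omega
    rw [h2] at h1
    exact le_of_mul_le_mul_left h1 (by positivity)
  have hlawV := hlaw.law V1 (by omega)
  have hp0 := hlaw.nonneg
  have hp1 : ∑ n ∈ S, w n ≤ 1 := hlaw.sum.le
  -- `h` and `s`
  have hhK : h ≤ K ^ (W + 1) := by
    have h1 : h < b ^ (Nat.log b h + 1) := Nat.lt_pow_succ_log_self hb1 h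
    have h2 : b ^ (Nat.log b h + 1) ≤ b ^ (e + 1) := Nat.pow_le_pow_right hb0 (by omega)
    have h3 : b ^ (e + 1) ≤ K ^ (W + 1) := by
      rw [pow_succ, pow_succ]
      exact Nat.mul_le_mul he ((Nat.le_self_pow (by norm_num) b).trans hKb2)
    omega
  obtain ⟨s, hs⟩ : ∃ s, s = Nat.log b (h + 2 * R) + 1 := ⟨_, rfl⟩
  have hs1 : h + 2 * R < b ^ s := by rw [hs]; exact Nat.lt_pow_succ_log_self hb1 _
  -- `R < M`
  have hRM : R < M := by
    by_contra hcon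
    push Not at hcon
    rw [hR, hM] at hcon
    have := hk₂ K (by omega) (K + 1) hcon
    omega
  obtain ⟨S', hS'⟩ : ∃ S', S' = Spec b V (K + e) S w (fun n => (h : ℤ) * n) := ⟨_, rfl⟩
  obtain ⟨S0, hS0⟩ : ∃ S0, S0 = Spec b V1 K S w (fun n => n) := ⟨_, rfl⟩
  have hMe : b ^ (K + e + 1) = M * b ^ e := by
    rw [hM, ← pow_add]
    congr 1
    ring
  have hbe0 : (0 : ℝ) < (b : ℝ) ^ e := by positivity
  have hcomes : Comes b K e h R S0 S' := by
    intro t' ht'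
    rw [hS'] at ht'
    unfold Spec at ht'
    rw [mem_filter, mem_range] at ht'
    obtain ⟨ht1, ht2⟩ := ht'
    refine ⟨ht1, ?_⟩
    obtain ⟨θ, hθ⟩ : ∃ θ : ℝ, θ = (h : ℝ) * ((t' : ℝ) / ((b ^ (K + e + 1) : ℕ) : ℝ)) := ⟨_, rfl⟩
    have e1 : ∑ ω ∈ S, ((w ω : ℝ) : ℂ) * ee ((((h : ℤ) * ω : ℤ) : ℝ) * ((t' : ℝ) / ((b ^ (K + e + 1) : ℕ) : ℝ))) = chF S w (fun n => n) θ := by
      unfold chF
      apply sum_congr rfl
      intro ω _
      congr 2
      rw [hθ]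
      push_cast
      ring
    rw [e1] at ht2
    have hθM : θ * M * (b : ℝ) ^ e = (h : ℝ) * t' := by
      rw [hθ, hMe]
      push_cast
      field_simp
    by_contra hcon
    push Not at hcon
    have e2 := lift_pt S w (fun n => n) hp0 hp1 L M hL1 hLM hY θ R hR2 (1 / (K : ℝ) ^ V1) (by positivity) (by
      intro t ht ⟨m, hm⟩
      by_contra hlt
      push Not at hlt
      have e3 : t ∈ S0 := by
        rw [hS0]
        unfold Spec
        rw [mem_filter, mem_range, ← hM]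
        exact ⟨ht, hlt⟩
      rw [abs_le] at hm
      have htM : (t : ℝ) < M := by exact_mod_cast ht
      have ht0 : (0 : ℝ) ≤ t := Nat.cast_nonneg _
      have hRMr : (R : ℝ) < M := by exact_mod_cast hRM
      have hθ0 : 0 ≤ θ := by rw [hθ]; positivity
      have hθh : θ ≤ h := by
        rw [hθ]
        have g1 : (t' : ℝ) / ((b ^ (K + e + 1) : ℕ) : ℝ) ≤ 1 := by
          rw [div_le_one (by positivity)]
          exact_mod_cast ht1.le
        have := mul_le_mul_of_nonneg_left g1 (Nat.cast_nonneg (α := ℝ) h)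
        linarith
      have hθM0 : 0 ≤ θ * M := by positivity
      have hθMh : θ * M ≤ h * M := mul_le_mul_of_nonneg_right hθh hM0r.le
      have m1 : -1 ≤ m := by
        by_contra hneg
        push Not at hneg
        have g1 : (m : ℝ) ≤ -2 := by exact_mod_cast (by omega : m ≤ -2)
        have g2 : (m : ℝ) * M ≤ -2 * M := mul_le_mul_of_nonneg_right g1 hM0r.le
        linarith [hm.2]
      have m2 : m ≤ h := by
        by_contra hneg
        push Not at hneg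
        have g1 : (h : ℝ) + 1 ≤ m := by exact_mod_cast (by omega : (h : ℤ) + 1 ≤ m)
        have g2 : ((h : ℝ) + 1) * M ≤ m * M := mul_le_mul_of_nonneg_right g1 hM0r.le
        linarith [hm.1]
      have e4 := hcon t e3 m m1 m2
      rw [lt_abs] at e4
      have e5 : ((((h : ℤ) * t' - (t + m * (b : ℤ) ^ (K + 1)) * (b : ℤ) ^ e : ℤ)) : ℝ) = (θ * M - t - m * M) * (b : ℝ) ^ e := by
        push_cast
        rw [← hθM, hM]
        push_cast
        ring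
      have e6 : (θ * M - t - m * M) * (b : ℝ) ^ e ≤ R * (b : ℝ) ^ e := mul_le_mul_of_nonneg_right hm.2 hbe0.le
      have e7 : -(R * (b : ℝ) ^ e) ≤ (θ * M - t - m * M) * (b : ℝ) ^ e := by
        have := mul_le_mul_of_nonneg_right hm.1 hbe0.le
        linarith
      rcases e4 with e4 | e4
      · have e8 : ((R * (b : ℤ) ^ e : ℤ) : ℝ) < ((((h : ℤ) * t' - (t + m * (b : ℤ) ^ (K + 1)) * (b : ℤ) ^ e : ℤ)) : ℝ) := by exact_mod_cast e4
        rw [e5] at e8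
        push_cast at e8
        linarith
      · have e8 : ((R * (b : ℤ) ^ e : ℤ) : ℝ) < ((-((h : ℤ) * t' - (t + m * (b : ℤ) ^ (K + 1)) * (b : ℤ) ^ e) : ℤ) : ℝ) := by exact_mod_cast e4
        rw [Int.cast_neg, e5] at e8
        push_cast at e8
        linarith)
    have e3 := num_small b K V e R L M hb (by omega) heK hR hL1 hML
    rw [← hV1] at e3
    have e4 := e2.trans e3
    linarith
  have hthin := thin_lift b E (K ^ c V1) K (2 * K / 5) (2 * (K + e) / 5) e h R s hb hE hh hs1 (by omega)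
    (Nat.div_le_div_right (by omega)) S0 S' (by rw [hS0]; exact hlawV.thin) hcomes
  refine ⟨hp0, hp1, ?_⟩
  rw [← hS']
  have hKK : 1 ≤ K + e := by omega
  refine thin_mono (by omega) hE le_rfl ?_ hthin
  -- the number
  obtain ⟨N, hN⟩ : ∃ N, N = K + e := ⟨_, rfl⟩
  rw [← hN]
  have hNK : K ≤ N := by omega
  have q1 : h + 2 ≤ K ^ (W + 2) := by
    have g1 : 1 ≤ K ^ (W + 1) := Nat.one_le_pow _ _ (by omega)
    calc h + 2 ≤ K ^ (W + 1) * 4 := by omega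
      _ ≤ K ^ (W + 1) * K := Nat.mul_le_mul_left _ hK4
      _ = K ^ (W + 2) := by rw [← pow_succ]
  have q2 : 2 * R * b ^ e + 1 ≤ K ^ (V + W + 3) := by
    have g1 : R * b ^ e ≤ K ^ (V + 2 + W) := by
      rw [pow_add, hR]
      exact Nat.mul_le_mul_left _ he
    have g2 : 1 ≤ K ^ (V + 2 + W) := Nat.one_le_pow _ _ (by omega)
    calc 2 * R * b ^ e + 1 = 2 * (R * b ^ e) + 1 := by ring
      _ ≤ K ^ (V + 2 + W) * 4 := by omega
      _ ≤ K ^ (V + 2 + W) * K := Nat.mul_le_mul_left _ hK4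
      _ = K ^ (V + W + 3) := by rw [← pow_succ]; congr 1; ring
  have q3 : b ^ (s + e + 1) ≤ K ^ (2 * W + V + 6) := by
    have g1 : b ^ (s - 1) ≤ h + 2 * R := by
      rw [hs, Nat.add_sub_cancel]
      exact Nat.pow_log_le_self b (by omega)
    have g2 : h + 2 * R ≤ K ^ (W + V + 4) := by
      have g3 : h ≤ K ^ (W + V + 3) := hhK.trans (Nat.pow_le_pow_right (by omega) (by omega))
      have g4 : R ≤ K ^ (W + V + 3) := by
        rw [hR]
        exact Nat.pow_le_pow_right (by omega) (by omega)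
      calc h + 2 * R ≤ K ^ (W + V + 3) * 4 := by omega
        _ ≤ K ^ (W + V + 3) * K := Nat.mul_le_mul_left _ hK4
        _ = K ^ (W + V + 4) := by rw [← pow_succ]
    have g3 : b ^ (s + e + 1) = b ^ (s - 1) * b ^ 2 * b ^ e := by
      rw [← pow_add, ← pow_add]
      congr 1
      omega
    rw [g3]
    calc b ^ (s - 1) * b ^ 2 * b ^ e ≤ K ^ (W + V + 4) * K * K ^ W :=
          Nat.mul_le_mul (Nat.mul_le_mul (g1.trans g2) hKb2) he
      _ = K ^ (2 * W + V + 5) := by rw [← pow_succ, ← pow_add]; congr 1; ring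
      _ ≤ _ := Nat.pow_le_pow_right (by omega) (by omega)
  calc K ^ c V1 * ((h + 2) * (2 * R * b ^ e + 1) * b ^ (s + e + 1)) ≤
        N ^ c V1 * (N ^ (W + 2) * N ^ (V + W + 3) * N ^ (2 * W + V + 6)) := by
        apply Nat.mul_le_mul (Nat.pow_le_pow_left hNK _)
        exact Nat.mul_le_mul (Nat.mul_le_mul (q1.trans (Nat.pow_le_pow_left hNK _)) (q2.trans (Nat.pow_le_pow_left hNK _)))
          (q3.trans (Nat.pow_le_pow_left hNK _))
    _ = N ^ (c V1 + ((W + 2) + (V + W + 3) + (2 * W + V + 6))) := by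
        rw [← pow_add, ← pow_add, ← pow_add]

end Pool.Agent.Q259.MO
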