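import Pool.Agent.Q259.MO.Lift4
import Pool.Agent.Q259.AS.One
import Pool.Agent.Y958.RM.Rnd
import Pool.Agent.Y958.RM.Cor

set_option autoImplicit false

/-! Hooley's variance near typical points. -/

namespace Pool.Agent.Q259.MO
open Finset MeasureTheory Filter
open Pool.Agent.Q259.AS
open Pool.Agent.TH894.PV (G)

/-- the exceptional moduli -/
def BadMod (ε : ℝ) (κ A N : ℕ) : Set ℤ :=
  {Q : ℤ | (N : ℝ) ≤ Q * Real.log N ^ A ∧ ∃ x : ℝ, (Q : ℝ) ≤ x ∧ x ≤ Q * Real.log N ^ κ ∧
    ¬ |G x Q.toNat - x * Real.log Q| ≤ ε * (x * Real.log Q)}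

theorem eng_mod (ε : ℝ) (hε : 0 < ε) (hε1 : ε ≤ 1) (κ A : ℕ) : Eng1 ℕ id (BadMod ε κ A) := by
  classical
  intro b E hb hE c k₀ B U
  obtain ⟨κ', hκ'⟩ : ∃ κ', κ' = κ + A + 2 := ⟨_, rfl⟩
  obtain ⟨V, hV⟩ := Pool.Agent.Y958.RM.main Pool.Agent.Y958.RM.cor κ' U b E hb hE
  obtain ⟨c', K₁, h1⟩ := dil_law b E hb hE c k₀ (2 * (κ' + 1) + 2) V
  obtain ⟨k₂, h2⟩ := hV ε hε hε1 c'
  refine ⟨K₁ + k₂ + B * b ^ A + b ^ κ + b + 4, fun K hK S w hw hS N hN1 hN2 => ?_⟩
  have hb1 : 1 < b := by omega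
  have hb0 : 0 < b := by omega
  have hK1 : 1 ≤ K := by omega
  have hbe : b ^ Pool.Agent.Y958.RM.eH b (2 * (κ' + 1)) K ≤ K ^ (2 * (κ' + 1) + 2) := by
    unfold Pool.Agent.Y958.RM.eH
    rw [pow_add, pow_add K]
    exact Nat.mul_le_mul (Nat.pow_log_le_self b (pow_ne_zero _ (by omega))) (Nat.pow_le_pow_left (by omega) 2)
  have key := h2 K (by omega) ℤ S w (fun n => n) hw.sum
    (fun h hh1 hh2 => h1 K (by omega) _ hbe h hh1 hh2 S w hw hS) (by
      intro n hn
      have g1 := hS n hn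
      have g2 : |n| ≤ (b : ℤ) ^ 3 * |n| := by
        have : (1 : ℤ) ≤ (b : ℤ) ^ 3 := by exact_mod_cast Nat.one_le_pow _ _ (by omega)
        exact le_mul_of_one_le_left (abs_nonneg _) this
      exact g2.trans g1)
    (fun n => n ∈ BadMod ε κ A N) (fun _ => Classical.propDecidable _) (by
      intro n _ hbad
      obtain ⟨g1, x, g2, g3, g4⟩ := hbad
      simp only [id] at hN1 hN2
      have hbr : (2 : ℝ) ≤ b := by exact_mod_cast hb
      have hKr : (1 : ℝ) ≤ K := by exact_mod_cast hK1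
      -- the logarithm
      have hN0 : 0 < N := by
        rcases Nat.eq_zero_or_pos N with h0 | h0
        · rw [h0, mul_zero] at hN1
          have : 0 < b ^ K := Nat.pow_pos hb0
          omega
        · exact h0
      have hNK : N ≤ b ^ K := by
        have : 1 ≤ b ^ 3 := Nat.one_le_pow _ _ hb0
        nlinarith
      have hlog0 : 0 ≤ Real.log N := Real.log_natCast_nonneg N
      have hlog : Real.log N ≤ b * K := by
        have e1 : Real.log N ≤ Real.log ((b : ℝ) ^ K) := Real.log_le_log (by exact_mod_cast hN0) (by exact_mod_cast hNK)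
        rw [Real.log_pow] at e1
        have e2 : Real.log b ≤ b := (Real.log_le_sub_one_of_pos (by linarith)).trans (by linarith)
        have e3 : (K : ℝ) * Real.log b ≤ K * b := mul_le_mul_of_nonneg_left e2 (by linarith)
        linarith
      have hn0 : (0 : ℝ) < n := by
        by_contra hcon
        push Not at hcon
        have e1 : (n : ℝ) * Real.log N ^ A ≤ 0 := mul_nonpos_of_nonpos_of_nonneg hcon (by positivity)
        have e2 : (0 : ℝ) < N := by exact_mod_cast hN0
        linarith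
      refine ⟨?_, x, g2, g3.trans ?_, g4⟩
      · have e1 : ((b : ℝ)) ^ K ≤ n * (K : ℝ) ^ κ' := by
          have e2 : (b : ℝ) ^ K ≤ B * N := by exact_mod_cast hN1
          have e3 : (B : ℝ) * N ≤ B * (n * (b * K) ^ A) := by
            apply mul_le_mul_of_nonneg_left _ (Nat.cast_nonneg _)
            exact g1.trans (mul_le_mul_of_nonneg_left (pow_le_pow_left₀ hlog0 hlog A) hn0.le)
          have e4 : (B : ℝ) * b ^ A ≤ K := by exact_mod_cast (by omega : B * b ^ A ≤ K)
          calc (b : ℝ) ^ K ≤ B * (n * (b * K) ^ A) := e2.trans e3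
            _ = n * ((B * b ^ A) * (K : ℝ) ^ A) := by rw [mul_pow]; ring
            _ ≤ n * (K * (K : ℝ) ^ A) := by
                apply mul_le_mul_of_nonneg_left _ hn0.le
                exact mul_le_mul_of_nonneg_right e4 (by positivity)
            _ = n * (K : ℝ) ^ (A + 1) := by rw [pow_succ]; ring
            _ ≤ n * (K : ℝ) ^ κ' := by
                apply mul_le_mul_of_nonneg_left _ hn0.le
                exact pow_le_pow_right₀ hKr (by omega)
        exact_mod_cast e1
      · apply mul_le_mul_of_nonneg_left _ hn0.le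
        have e4 : (b : ℝ) ^ κ ≤ K := by exact_mod_cast (by omega : b ^ κ ≤ K)
        calc Real.log N ^ κ ≤ (b * K) ^ κ := pow_le_pow_left₀ hlog0 hlog κ
          _ = (b : ℝ) ^ κ * (K : ℝ) ^ κ := mul_pow _ _ _
          _ ≤ K * (K : ℝ) ^ κ := mul_le_mul_of_nonneg_right e4 (by positivity)
          _ = (K : ℝ) ^ (κ + 1) := by rw [pow_succ]; ring
          _ ≤ _ := pow_le_pow_right₀ hKr (by omega))
  refine le_trans (le_of_eq ?_) key
  apply sum_congr rfl
  intro n _
  exact ite_inst _ _ _ _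

end Pool.Agent.Q259.MO
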