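import Pool.Agent.Q259.MO.Mod1
import Pool.Agent.Q259.AS.FnA
import Pool.Agent.Q259.AS.Sel7

set_option autoImplicit false

/-! Hooley's variance for typical moduli. -/

namespace Pool.Agent.Q259.MO
open Finset MeasureTheory Filter
open Pool.Agent.Q259.AS
open Pool.Agent.TH894.PV (G)

theorem as_mod (μ : Measure ℝ) [IsProbabilityMeasure μ] (hμ : SelfSim μ ∨ FourLp μ) (a : ℕ → ℝ) (ρ : ℝ) (hρ : 0 < ρ)
    (ha : ∀ᶠ k : ℕ in atTop, 0 < a k ∧ (k : ℝ) ^ ρ ≤ Real.log (a k)) (B T : ℕ) (Y : ℕ → Finset ℝ)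
    (hY : ∀ᶠ k : ℕ in atTop, (Y k).card ≤ k ^ T ∧ ∀ y ∈ Y k, |y| ≤ B * a k) :
    ∀ᵐ x ∂μ, ∀ ε : ℝ, 0 < ε → ∀ A κ : ℕ, ∀ᶠ k : ℕ in atTop, ∀ y ∈ Y k, ∀ q : ℕ,
      a k / Real.log (a k) ^ A ≤ q → |(q : ℝ) - (a k * x + y)| ≤ Real.log (a k) ^ A →
      ∀ X : ℝ, (q : ℝ) ≤ X → X ≤ q * Real.log q ^ κ → |G X q - X * Real.log q| ≤ ε * (X * Real.log q) := by
  have h1 : ∀ m A κ A' : ℕ, ∀ᵐ x ∂μ, ∀ᶠ k : ℕ in atTop, ∀ y ∈ Y k, ∀ n ∈ BadMod (1 / ((m : ℝ) + 1)) κ A ⌈a k⌉₊,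
      Real.log (a k) ^ A' < |(n : ℝ) - (a k * x + y)| := by
    intro m A κ A'
    have hm1 : (1 : ℝ) / ((m : ℝ) + 1) ≤ 1 := by
      rw [div_le_one (by positivity)]
      have : (0 : ℝ) ≤ m := Nat.cast_nonneg m
      linarith
    exact as_one (eng_mod (1 / ((m : ℝ) + 1)) (by positivity) hm1 κ A) μ (niceM_of μ hμ) a ρ hρ
      (ha.mono fun k h => h.2) (ha.mono fun k h => h.1) T A' (B + 2) Y (hY.mono fun k h => h.1) (fun _ y => y)
      (by
        filter_upwards [hY, ha] with k h h2 y hy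
        refine (h.2 y hy).trans (mul_le_mul_of_nonneg_right ?_ h2.1.le)
        push_cast
        linarith)
      (fun k _ => ⌈a k⌉₊)
      (by
        filter_upwards [ha, eventually_ge_atTop 1] with k h hk y _
        have h0 : 0 < Real.log (a k) :=
          lt_of_lt_of_le (Real.rpow_pos_of_pos (by exact_mod_cast hk) ρ) h.2
        have h1 : 1 < a k := (Real.log_pos_iff h.1.le).1 h0
        have h3 := Nat.le_ceil (a k)
        have h4 := Nat.ceil_lt_add_one h.1.le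
        have h5 : (0 : ℝ) ≤ B := Nat.cast_nonneg B
        simp only [id]
        push_cast
        constructor
        · nlinarith
        · nlinarith)
  have h2 := ae_all_iff.2 (fun m => ae_all_iff.2 (fun A => ae_all_iff.2 (fun κ => ae_all_iff.2 (h1 m A κ))))
  filter_upwards [h2] with x hx ε hε A κ
  obtain ⟨m, hm⟩ := exists_nat_one_div_lt hε
  obtain ⟨k₀, hk₀⟩ := (sizes_ev a ρ hρ ha (2 + (|x| + B + 1) + 2 ^ κ)).exists_forall_of_atTop
  obtain ⟨k₁, hk₁⟩ := (sizes_ev a ρ hρ ha (2 * Real.log (|x| + B + 1))).exists_forall_of_atTop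
  have hlogA : ∀ᶠ k : ℕ in atTop, Real.log (a k) ^ A ≤ a k := by
    have e1 : Tendsto (fun k : ℕ => Real.log (a k)) atTop atTop := by
      have e0 : Tendsto (fun k : ℕ => (k : ℝ) ^ ρ) atTop atTop := (tendsto_rpow_atTop hρ).comp tendsto_natCast_atTop_atTop
      exact tendsto_atTop_mono' _ (ha.mono fun k h => h.2) e0
    have e2 : ∀ᶠ t : ℝ in atTop, t ^ A ≤ Real.exp t := by
      have e3 := (Real.isLittleO_pow_exp_atTop (n := A)).bound (show (0 : ℝ) < 1 by norm_num)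
      filter_upwards [e3, eventually_ge_atTop 0] with t ht ht0
      rw [Real.norm_of_nonneg (by positivity), Real.norm_of_nonneg (Real.exp_pos t).le, one_mul] at ht
      exact ht
    filter_upwards [e1.eventually e2, ha] with k h h'
    rwa [Real.exp_log h'.1] at h
  filter_upwards [hx m (A + 1) (κ + 1) A, hY, ha, hlogA, eventually_ge_atTop k₀, eventually_ge_atTop k₁]
    with k hk hYk hak hlA hkk₀ hkk₁ y hy q hq1 hq2 X hX1 hX2
  have s0 := hk₀ k hkk₀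
  have s1 := hk₁ k hkk₁
  have hB0 : (0 : ℝ) ≤ B := Nat.cast_nonneg B
  have hx0 := abs_nonneg x
  have ha1 : 1 < a k := s0.2.2
  have hL : 0 < Real.log (a k) := by linarith [s0.2.1]
  have hp2 : (1 : ℝ) ≤ 2 ^ κ := one_le_pow₀ (by norm_num)
  have hN := Nat.le_ceil (a k)
  have hN2 := Nat.ceil_lt_add_one hak.1.le
  have hLN : Real.log (a k) ≤ Real.log (⌈a k⌉₊ : ℝ) := Real.log_le_log hak.1 hN
  have hLN2 : 2 ≤ Real.log (⌈a k⌉₊ : ℝ) := by linarith [s0.1]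
  have hLNκ : (2 : ℝ) ^ κ ≤ Real.log (⌈a k⌉₊ : ℝ) := by linarith [s0.1]
  have hq0 : (0 : ℝ) < q := lt_of_lt_of_le (by positivity) hq1
  have hq1' : (1 : ℝ) ≤ q := by
    have : 0 < q := by exact_mod_cast hq0
    exact_mod_cast this
  -- the size of `q`
  have hqle : (q : ℝ) ≤ (|x| + B + 1) * a k := by
    have e1 := (abs_le.1 hq2).2
    have e2 := hYk.2 y hy
    have e3 := (abs_le.1 e2).2
    have e4 : a k * x ≤ a k * |x| := mul_le_mul_of_nonneg_left (le_abs_self x) hak.1.le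
    nlinarith
  have hlq0 : 0 ≤ Real.log q := Real.log_nonneg hq1'
  have hlq : Real.log q ≤ 2 * Real.log (⌈a k⌉₊ : ℝ) := by
    have e1 : Real.log q ≤ Real.log ((|x| + B + 1) * a k) := Real.log_le_log hq0 hqle
    rw [Real.log_mul (by positivity) hak.1.ne'] at e1
    linarith [s1.1]
  have hnot : ¬ ((q : ℤ) ∈ BadMod (1 / ((m : ℝ) + 1)) (κ + 1) (A + 1) ⌈a k⌉₊) := by
    intro h
    have e1 := hk y hy (q : ℤ) h
    push_cast at e1
    linarith
  by_contra hcon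
  apply hnot
  refine ⟨?_, X, ?_, ?_, ?_⟩
  · push_cast
    have e1 : a k ≤ q * Real.log (a k) ^ A := by
      rw [div_le_iff₀ (by positivity)] at hq1
      exact hq1
    have e2 : Real.log (a k) ^ A ≤ Real.log (⌈a k⌉₊ : ℝ) ^ A := pow_le_pow_left₀ hL.le hLN A
    calc (⌈a k⌉₊ : ℝ) ≤ a k * 2 := by linarith
      _ ≤ (q * Real.log (⌈a k⌉₊ : ℝ) ^ A) * Real.log (⌈a k⌉₊ : ℝ) := by
          apply mul_le_mul _ hLN2 (by norm_num) (by positivity)
          exact e1.trans (mul_le_mul_of_nonneg_left e2 hq0.le)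
      _ = q * Real.log (⌈a k⌉₊ : ℝ) ^ (A + 1) := by rw [pow_succ]; ring
  · push_cast
    exact hX1
  · push_cast
    refine hX2.trans (mul_le_mul_of_nonneg_left ?_ hq0.le)
    calc Real.log q ^ κ ≤ (2 * Real.log (⌈a k⌉₊ : ℝ)) ^ κ := pow_le_pow_left₀ hlq0 hlq κ
      _ = 2 ^ κ * Real.log (⌈a k⌉₊ : ℝ) ^ κ := mul_pow _ _ _
      _ ≤ Real.log (⌈a k⌉₊ : ℝ) * Real.log (⌈a k⌉₊ : ℝ) ^ κ :=
          mul_le_mul_of_nonneg_right hLNκ (by positivity)
      _ = _ := by rw [pow_succ]; ring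
  · intro h
    apply hcon
    rw [Int.toNat_natCast] at h
    push_cast at h
    refine h.trans (mul_le_mul_of_nonneg_right hm.le ?_)
    have : 0 ≤ X := hq0.le.trans hX1
    positivity

end Pool.Agent.Q259.MO
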