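import Pool.Agent.TH894.PV5
import Pool.Agent.TH212.EH.A0

set_option autoImplicit false

/-! Consequences of a bound of the variance for one modulus. -/

namespace Pool.Agent.Q259.MO
open Finset Filter
open Pool.Agent.TH894.PV (G psiAP)

/-- the mean absolute deviation -/
lemma l1_of_var (X : ℝ) (q : ℕ) :
    (∑ a ∈ (range q).filter (fun a => Nat.Coprime a q), |psiAP X q a - X / (Nat.totient q : ℝ)|) ^ 2 ≤
      Nat.totient q * G X q := by
  have hcard : (((range q).filter (fun a => Nat.Coprime a q)).card : ℝ) = (Nat.totient q : ℝ) := by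
    rw [Nat.totient_eq_card_coprime]
    congr 2
    ext a
    rw [mem_filter, mem_filter, Nat.coprime_comm]
  have h := sq_sum_le_card_mul_sum_sq (s := (range q).filter (fun a => Nat.Coprime a q))
    (f := fun a => |psiAP X q a - X / (Nat.totient q : ℝ)|)
  rw [hcard] at h
  refine h.trans (le_of_eq ?_)
  unfold G
  simp only [sq_abs]

open Classical in
/-- the reduced classes `a` modulo `q` without a prime `p ≤ X` -/
noncomputable def noPr (X : ℝ) (q : ℕ) : Finset ℕ :=
  ((range q).filter (fun a => Nat.Coprime a q)).filter (fun a => ¬ ∃ p : ℕ, p.Prime ∧ (p : ℝ) ≤ X ∧ p % q = a)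

lemma noPr_le (X : ℝ) (hX : 1 ≤ X) (q : ℕ) :
    ((noPr X q).card : ℝ) * (X / (Nat.totient q : ℝ)) ^ 2 ≤
      G X q + 4 * (X / (Nat.totient q : ℝ)) * (Real.sqrt X * Real.log X) := by
  classical
  obtain ⟨M, hM⟩ : ∃ M, M = X / (Nat.totient q : ℝ) := ⟨_, rfl⟩
  have hM0 : 0 ≤ M := by rw [hM]; positivity
  rw [← hM]
  -- on these classes `ψ` is a sum over the proper prime powers
  have h1 : ∑ a ∈ noPr X q, psiAP X q a ≤ 2 * (Real.sqrt X * Real.log X) := by
    have e1 : ∀ a ∈ noPr X q, psiAP X q a =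
        ∑ n ∈ ((Ioc 0 ⌊X⌋₊).filter (fun n => ¬ n.Prime)).filter (fun n => n % q = a), ArithmeticFunction.vonMangoldt n := by
      intro a ha
      unfold psiAP
      apply sum_congr _ (fun _ _ => rfl)
      ext n
      simp only [mem_filter, mem_Icc, mem_Ioc]
      constructor
      · rintro ⟨⟨h1, h2⟩, h3⟩
        refine ⟨⟨⟨by omega, h2⟩, fun hp => ?_⟩, h3⟩
        refine (mem_filter.1 ha).2 ⟨n, hp, ?_, h3⟩
        exact (Nat.le_floor_iff (by linarith)).1 h2
      · rintro ⟨⟨⟨h1, h2⟩, -⟩, h3⟩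
        exact ⟨⟨by omega, h2⟩, h3⟩
    rw [sum_congr rfl e1]
    have e2 : ∑ a ∈ noPr X q, ∑ n ∈ ((Ioc 0 ⌊X⌋₊).filter (fun n => ¬ n.Prime)).filter (fun n => n % q = a),
        ArithmeticFunction.vonMangoldt n ≤
        ∑ n ∈ (Ioc 0 ⌊X⌋₊).filter (fun n => ¬ n.Prime), ArithmeticFunction.vonMangoldt n := by
      rw [sum_fiberwise_eq_sum_filter]
      exact sum_le_sum_of_subset_of_nonneg (filter_subset _ _)
        (fun _ _ _ => ArithmeticFunction.vonMangoldt_nonneg)
    refine e2.trans ?_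
    rw [← Chebyshev.psi_sub_theta_eq_sum_not_prime]
    have := Chebyshev.psi_sub_theta_le hX
    linarith
  have h2 : ∑ a ∈ noPr X q, (psiAP X q a - M) ^ 2 ≤ G X q := by
    unfold G
    rw [← hM]
    exact sum_le_sum_of_subset_of_nonneg (filter_subset _ _) (fun _ _ _ => sq_nonneg _)
  have h3 : ∑ a ∈ noPr X q, (M ^ 2 - 2 * M * psiAP X q a) ≤ ∑ a ∈ noPr X q, (psiAP X q a - M) ^ 2 := by
    apply sum_le_sum
    intro a _
    nlinarith [sq_nonneg (psiAP X q a)]
  rw [sum_sub_distrib, sum_const, nsmul_eq_mul, ← mul_sum] at h3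
  have h4 : 2 * M * ∑ a ∈ noPr X q, psiAP X q a ≤ 2 * M * (2 * (Real.sqrt X * Real.log X)) :=
    mul_le_mul_of_nonneg_left h1 (by positivity)
  linarith

/-- the number of the classes with a large deviation -/
lemma dev_le (X : ℝ) (q : ℕ) (τ : ℝ) (hτ : 0 ≤ τ) :
    ((((range q).filter (fun a => Nat.Coprime a q)).filter
      (fun a => τ < |psiAP X q a - X / (Nat.totient q : ℝ)|)).card : ℝ) * τ ^ 2 ≤ G X q := by
  rw [← nsmul_eq_mul, ← sum_const]
  unfold G
  refine le_trans (sum_le_sum (g := fun a => (psiAP X q a - X / (Nat.totient q : ℝ)) ^ 2) ?_)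
    (sum_le_sum_of_subset_of_nonneg (filter_subset _ _) (fun _ _ _ => sq_nonneg _))
  intro a ha
  have h := (mem_filter.1 ha).2
  rw [← sq_abs (psiAP X q a - _)]
  exact pow_le_pow_left₀ hτ h.le 2

/-- few classes without a small prime -/
lemma noPr_small (δ : ℝ) (hδ : 0 < δ) (hδ1 : δ ≤ 1) : ∃ q₀ : ℕ, ∀ q : ℕ, q₀ ≤ q →
    (∀ X : ℝ, (q : ℝ) ≤ X → X ≤ q * Real.log q ^ 2 → |G X q - X * Real.log q| ≤ 1 / 4 * (X * Real.log q)) →
    ((noPr (3 / δ * (Nat.totient q * Real.log q)) q).card : ℝ) ≤ δ * Nat.totient q := by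
  have hlog : Tendsto (fun q : ℕ => Real.log (q : ℝ)) atTop atTop :=
    Real.tendsto_log_atTop.comp tendsto_natCast_atTop_atTop
  have hll : ∀ᶠ t : ℝ in atTop, 1 ≤ t ∧ Real.log t ≤ δ / 16 * Real.sqrt t := by
    have e := (isLittleO_log_rpow_atTop (show (0 : ℝ) < 1 / 2 by norm_num)).bound (show (0 : ℝ) < δ / 16 by positivity)
    filter_upwards [e, eventually_ge_atTop 1] with t ht ht1
    rw [Real.norm_of_nonneg (Real.log_nonneg ht1), Real.norm_of_nonneg (by positivity), ← Real.sqrt_eq_rpow] at ht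
    exact ⟨ht1, ht⟩
  obtain ⟨q₁, h1⟩ := (hlog.eventually_ge_atTop (3 / δ + 1)).exists_forall_of_atTop
  obtain ⟨t₁, h2⟩ := hll.exists_forall_of_atTop
  obtain ⟨q₂, h3⟩ := exists_nat_ge t₁
  refine ⟨q₁ + q₂ + 1, fun q hq hG => ?_⟩
  have hq1 := h1 q (by omega)
  have h3δ : 3 ≤ 3 / δ := by
    rw [le_div_iff₀ hδ]
    nlinarith
  have hL : 3 ≤ Real.log (q : ℝ) := by linarith
  have hφ := Pool.Agent.TH212.EH.phi_low q (by omega)
  have hφ0 : (0 : ℝ) < Nat.totient q := by exact_mod_cast Nat.totient_pos.2 (by omega)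
  have hφq : (Nat.totient q : ℝ) ≤ q := by exact_mod_cast Nat.totient_le q
  have hq0 : (0 : ℝ) < q := lt_of_lt_of_le hφ0 hφq
  obtain ⟨X, hX⟩ : ∃ X, X = 3 / δ * (Nat.totient q * Real.log q) := ⟨_, rfl⟩
  rw [← hX]
  have hX1 : (q : ℝ) ≤ X := by
    rw [hX]
    calc (q : ℝ) ≤ (1 + 2 * Real.log q) * Nat.totient q := hφ
      _ ≤ (3 * Real.log q) * Nat.totient q := mul_le_mul_of_nonneg_right (by linarith) hφ0.le
      _ = 3 * (Nat.totient q * Real.log q) := by ring
      _ ≤ 3 / δ * (Nat.totient q * Real.log q) := mul_le_mul_of_nonneg_right h3δ (by positivity)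
  have hX2 : X ≤ q * Real.log q ^ 2 := by
    rw [hX]
    calc 3 / δ * (Nat.totient q * Real.log q) ≤ Real.log q * (q * Real.log q) := by
          apply mul_le_mul (by linarith) _ (by positivity) (by linarith)
          exact mul_le_mul_of_nonneg_right hφq (by linarith)
      _ = _ := by ring
  have hXpos : 0 < X := lt_of_lt_of_le hq0 hX1
  have hX1' : 1 ≤ X := by
    have : (1 : ℝ) ≤ q := by exact_mod_cast (by omega : 1 ≤ q)
    linarith
  have hvar := (abs_le.1 (hG X hX1 hX2)).2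
  have hmain := noPr_le X hX1' q
  have ht := h2 X (by
    have : (q₂ : ℝ) ≤ q := by exact_mod_cast (by omega : q₂ ≤ q)
    linarith)
  have hsq : Real.sqrt X * Real.sqrt X = X := Real.mul_self_sqrt hXpos.le
  have hs0 : 0 < Real.sqrt X := Real.sqrt_pos.2 hXpos
  have hsec : Real.sqrt X * Real.log X ≤ δ / 16 * X := by
    calc Real.sqrt X * Real.log X ≤ Real.sqrt X * (δ / 16 * Real.sqrt X) := mul_le_mul_of_nonneg_left ht.2 hs0.le
      _ = δ / 16 * (Real.sqrt X * Real.sqrt X) := by ring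
      _ = _ := by rw [hsq]
  have hlogq : Real.log (q : ℝ) = δ / 3 * (X / Nat.totient q) := by
    rw [hX]
    field_simp
  obtain ⟨M, hM⟩ : ∃ M, M = X / (Nat.totient q : ℝ) := ⟨_, rfl⟩
  rw [← hM] at hmain hlogq
  have hM0 : 0 < M := by rw [hM]; positivity
  have hXM : X = M * Nat.totient q := by rw [hM]; field_simp
  have hb : 4 * M * (Real.sqrt X * Real.log X) ≤ δ / 4 * (M * X) := by
    have := mul_le_mul_of_nonneg_left hsec (show 0 ≤ 4 * M by linarith)
    linarith
  have hfin : ((noPr X q).card : ℝ) * M ^ 2 ≤ (δ * Nat.totient q) * M ^ 2 := by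
    refine hmain.trans ?_
    have e1 : G X q ≤ 5 / 4 * (X * Real.log q) := by linarith
    have e2 : X * Real.log q = δ / 3 * (Nat.totient q * M ^ 2) := by
      rw [hlogq, hXM]
      ring
    have e3 : M * X = Nat.totient q * M ^ 2 := by
      rw [hXM]
      ring
    rw [e2] at e1
    rw [e3] at hb
    have e4 : 0 ≤ δ * (Nat.totient q * M ^ 2) := by positivity
    nlinarith
  exact le_of_mul_le_mul_right hfin (by positivity)

end Pool.Agent.Q259.MO
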